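import Pool.Agent.Q18.Pairs3
import Pool.Agent.W97.TW.Delta
import Pool.Agent.W97.TW.NewEleven

/-!
# Simultaneous non-vanishing of two quadratic twists: the answer is negative

Let `f` be a newform of weight `k` and of level `N`, `N = 1` or a prime, and let `χ` be an ODD quadratic character
with `χ(N) = 1` (no condition if `N = 1`; for `N` prime: `N` splits in the imaginary quadratic field of `χ`).  Then for
EVERY quadratic character `ψ`

  `L(f ⊗ ψ, 1/2) L(f ⊗ χψ, 1/2) = 0`,

`χψ` being the primitive character which induces the product.  Examples: `f = Δ` (weight `12`, level one) and every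
odd quadratic `χ`; `f = η(z)² η(11 z)²`, the newform of weight `2` and level `11`, and every odd quadratic `χ` with
`χ(11) = 1`, for example the character of `ℚ(√-7)`.

The proof: the `L`-function of the twist by a primitive real character `ψ` of conductor `m` is entire with a functional
equation (proved here, from the action of `Γ_0(N)` and of the Fricke involution on `∑_a ψ(a) f(z + a/m)`) with sign
`ψ(-N)` times a sign that depends only on `f` if `N` does not divide `m`, and `ψ(-1) i^k` if `N` is a prime and divides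
`m`.  As `χ(N) = 1`, `N` divides the conductor of `χψ` iff it divides that of `ψ`, and the two signs differ by the
factor `χ(-N) = χ(-1) = -1`.  So one of them is `-1`.
-/

set_option autoImplicit false

open UpperHalfPlane MatrixGroups CongruenceSubgroup

namespace Pool.Agent.Results.MP_d17ed7_nt.SignObstruction

open Pool.Agent.W97.TW

/-- there is a quadratic character `ψ` with `L(f ⊗ ψ, 1/2) L(f ⊗ χψ, 1/2) ≠ 0` -/
def HasNonvanishingPair (N : ℕ) (k : ℤ) (f : CuspForm (Gamma0 N : Subgroup (GL (Fin 2) ℝ)) k)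
    (χ : QuadraticCharacter) : Prop :=
  ∃ (ψ : QuadraticCharacter) (L₁ L₂ : ℂ → ℂ), IsTwistedLFunction N k f ψ.χ L₁ ∧
    IsTwistedLFunction N k f (DirichletCharacter.primitive_mul χ.χ ψ.χ) L₂ ∧
    L₁ (1 / 2) * L₂ (1 / 2) ≠ 0

/-- **Negative answer to Q1.** For newforms of level one and of prime level `N` the `L`-functions of all quadratic
twists exist and are unique; if `χ` is odd with `χ(N) = 1`, then there is no `ψ` as asked for; and such `f`, `χ` exist in
weight `12` and level `1` (the discriminant, every odd `χ`) and in weight `2` and level `11` (the form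
`η(z)² η(11 z)²`, for example with the odd character `χ` of conductor `7`). -/
theorem result :
    (∀ (N : ℕ) (k : ℤ) (f : CuspForm (Gamma0 N : Subgroup (GL (Fin 2) ℝ)) k), (N = 1 ∨ N.Prime) → 0 < k →
      IsNewform N k f →
      (∀ m : ℕ, 0 < m → ∀ ψ : DirichletCharacter ℂ m, ψ.IsPrimitive → ψ ^ 2 = 1 →
        ∃! L : ℂ → ℂ, IsTwistedLFunction N k f ψ L) ∧
      ∀ χ : QuadraticCharacter, χ.χ (-1) = -1 → χ.χ N = 1 → ¬ HasNonvanishingPair N k f χ) ∧
    IsNewform 1 12 deltaForm ∧ (∀ z : ℍ, deltaForm z = ModularForm.eta z ^ 24) ∧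
    IsNewform 11 2 f11 ∧ (∀ z : ℍ, f11 z = ModularForm.eta z ^ 2 * ModularForm.eta (11 * z) ^ 2) ∧
    ∃ χ : QuadraticCharacter, χ.modulus = 7 ∧ χ.χ (-1) = -1 ∧ χ.χ (11 : ℕ) = 1 := by
  refine ⟨fun N k f hN hk hf => ?_, isNewform_delta, deltaForm_apply, isNewform_f11, f11_apply,
    Pool.Agent.Q18.Pairs.quad7, rfl, Pool.Agent.Q18.Pairs.chi7_neg_one,
    Pool.Agent.Q18.Pairs.chi7_eleven⟩
  have hN0 : NeZero N := by
    rcases hN with rfl | hN
    · exact ⟨one_ne_zero⟩
    · exact ⟨hN.ne_zero⟩
  refine ⟨fun m hm ψ hψ hψ2 => ?_, fun χ hχ1 hχN hpair => ?_⟩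
  · have : NeZero m := ⟨hm.ne'⟩
    obtain ⟨L, hL⟩ := Pool.Agent.Q18.Pairs.exists_L f hN hk hf ψ hψ hψ2
    exact ⟨L, hL, fun L' hL' => Pool.Agent.Q18.Pairs.unique f hL' hL⟩
  · obtain ⟨ψ, L₁, L₂, h1, h2, h3⟩ := hpair
    have : NeZero χ.modulus := ⟨χ.modulus_pos.ne'⟩
    have : NeZero ψ.modulus := ⟨ψ.modulus_pos.ne'⟩
    rcases Pool.Agent.Q18.Pairs.pair f hN hk hf χ.χ ψ.χ χ.sq_eq_one hχ1 hχN ψ.primitive
      ψ.sq_eq_one h1 h2 with h | h
    · exact h3 (by rw [h, zero_mul])
    · exact h3 (by rw [h, mul_zero])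

end Pool.Agent.Results.MP_d17ed7_nt.SignObstruction
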